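import Pool.Agent.H609R2.EqPoly
import Pool.Agent.H609R2.NPClosure

/-!
# Recognizing equistable graphs is coNP-hard

The decision problem EQUISTABLE has as input a finite simple graph, given by an adjacency matrix
`M : List (List Bool)`; `matGraph M` is the graph.  It is `coNP`-hard under polynomial-time
many-one reductions, hence not in `NP` unless `coNP` is contained in `NP`.

Reduction from the complement of 3SAT.  The vertices are the pairs `(i, a)`, meaning that the
variable `i` has the value `a`, and the triples `(i, k, b)` such that the value `b` of the variable
`i` does not satisfy the clause `k`, meaning that the clause `k` is falsified and the variable `i`
has the value `b`; adjacency is contradiction (in particular triples with different `k` are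
adjacent).  If the formula is unsatisfiable then the maximal stable sets are the pairs of an
assignment and a clause falsified by it, and every edge lies in a clique meeting all of them, so
that the graph is a general partition graph and hence equistable.  If it is satisfiable then
satisfying assignments are maximal stable sets as well, so the two values of a dummy variable have
equal weights, which is impossible in an equistable graph.
-/

namespace Pool.Agent.Results.MP_117856_lc.EquistableCoNPHard

open Pool.Agent.NPC Pool.Agent.H622R2 Pool.Agent.H609R2

/-- EQUISTABLE is `coNP`-hard; if it is in `NP` then `coNP` is contained in `NP`. -/
theorem result : CoNPHardP (fun M : List (List Bool) => Equistable (matGraph M)) ∧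
    (InNPP (fun M : List (List Bool) => Equistable (matGraph M)) →
      ∀ L : Set (List Bool), InCoNP L → InNP L) := by
  have h : CoNPHardP (fun M : List (List Bool) => Equistable (matGraph M)) :=
    hardI_not_equistable.toCoNPHardP
  exact ⟨h, fun h' => CoNPHard.collapse609 h h'⟩

end Pool.Agent.Results.MP_117856_lc.EquistableCoNPHard
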